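import Mathlib
import Pool.Agent.R398.AS.Defs

/-! Satake parameters of a representation of `GL(n)` over a quadratic extension `E / K`, and its Asai lift. -/

set_option autoImplicit false

namespace Pool.Agent.R398.LI

open NumberField IsDedekindDomain
open Pool.Agent.R398.AS (Nm Above Inert)

variable {K E : Type} [Field K] [NumberField K] [Field E] [NumberField E] [Algebra K E] {n : ℕ}

/-- the trace of the `k`-th power of a parameter -/
noncomputable def pw (a : Fin n → ℂ) (k : ℕ) : ℂ := ∑ i, a i ^ k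

open scoped Classical in
/-- the trace of the `k`-th power of the Satake parameter at `v` of the Asai lift of `Π`: if `v` is inert and `w` is
the place above `v`, this is `tr Π_w^k` for odd `k` and `(tr Π_w^{k/2})²` for even `k`; if `v` splits it is the
product of the `tr Π_w^k` over the two places `w` above `v` -/
noncomputable def asaiPw (α : HeightOneSpectrum (𝓞 E) → Fin n → ℂ) (v : HeightOneSpectrum (𝓞 K)) (k : ℕ) : ℂ :=
  ∏ᶠ w ∈ {w : HeightOneSpectrum (𝓞 E) | Above v w},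
    if Inert E v ∧ Even k then pw (α w) (k / 2) ^ 2 else pw (α w) k

/-- the finite places of `K` outside `S` -/
abbrev Places {K : Type} [Field K] [NumberField K] (S : Finset (HeightOneSpectrum (𝓞 K))) :=
  {v : HeightOneSpectrum (𝓞 K) // v ∉ S}

/-- `∑_{v ∉ S} ∑_{k ≥ 1} (|tr As(Π)_v^k|² - 1) / k · (N v)^{-ks}`, the logarithm of the partial adjoint `L`-function
`L^S(s, As Π × (As Π)~) / ζ_K^S(s)` of the Asai lift -/
noncomputable def logAd (S : Finset (HeightOneSpectrum (𝓞 K))) (α : HeightOneSpectrum (𝓞 E) → Fin n → ℂ)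
    (s : ℂ) : ℂ :=
  ∑' x : Places S × ℕ, (((‖asaiPw α x.1.1 (x.2 + 1)‖ ^ 2 - 1) / ((x.2 : ℝ) + 1) : ℝ) : ℂ) *
    (((Nm x.1.1 : ℕ) : ℂ) ^ (-s)) ^ (x.2 + 1)

variable (E) in
/-- the place `v` of `K` is ramified in `E` -/
def Ramified (v : HeightOneSpectrum (𝓞 K)) : Prop :=
  ∃ w : HeightOneSpectrum (𝓞 E), v.asIdeal.map (algebraMap (𝓞 K) (𝓞 E)) ≤ w.asIdeal ^ 2

variable (E) in
open scoped Classical in
/-- the quadratic character of `E / K` -/
noncomputable def chi (v : HeightOneSpectrum (𝓞 K)) : ℝ :=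
  if Inert E v then -1 else if Ramified E v then 0 else 1

variable (E) in
/-- `∑_v ∑_{k ≥ 1} χ(v)^k / k · (N v)^{-ks}`, the logarithm of the `L`-function of the quadratic character -/
noncomputable def logChi (s : ℂ) : ℂ :=
  ∑' x : HeightOneSpectrum (𝓞 K) × ℕ, ((chi E x.1 ^ (x.2 + 1) / ((x.2 : ℝ) + 1) : ℝ) : ℂ) *
    (((Nm x.1 : ℕ) : ℂ) ^ (-s)) ^ (x.2 + 1)

/-- What is used of the `L`-function of the quadratic character of `E / K`: it is entire, with a functional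
equation (Hecke). -/
structure QuadraticL (K E : Type) [Field K] [NumberField K] [Field E] [NumberField E] [Algebra K E]
    (κ : Fin (Module.finrank ℚ K) → ℂ) (Q : ℝ) : Prop where
  /-- the conductor -/
  one_le : 1 ≤ Q
  /-- the Gamma factors -/
  gamma : ∀ j, κ j = 0 ∨ κ j = 1
  /-- the `L`-function: `F` is the finite part, `Ξ` the completed one -/
  lfunction : ∃ (F Ξ : ℂ → ℂ) (ω : ℂ), Differentiable ℂ F ∧ Differentiable ℂ Ξ ∧ ‖ω‖ = 1 ∧
    (∀ a b : ℝ, ∃ (C : ℝ) (A : ℕ), ∀ s : ℂ, a ≤ s.re → s.re ≤ b → ‖F s‖ ≤ C * (1 + |s.im|) ^ A) ∧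
    (∀ s : ℂ, 1 < s.re → F s = Complex.exp (logChi (K := K) E s)) ∧
    (∀ s : ℂ, 1 < s.re → Ξ s = F s * ((Q : ℂ) ^ s * ∏ j, Complex.Gammaℝ (s + κ j))) ∧
    ∀ s : ℂ, Ξ (1 - s) = ω * Ξ s

/-- What is used of a unitary automorphic representation `Π` of `GL_n` over `E`: `α` are the Satake parameters at the
places not above `S`, `β` the reciprocal roots at the places `v ∈ S` of the adjoint `L`-factors
`L(s, As Π_v × (As Π_v)~) / ζ_v(s)` of the Asai lift, `T` the factors to be removed, `κ` the parameters of the Gamma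
factors and `Q²` the conductor of the adjoint `L`-function. -/
structure AsaiGL (S : Finset (HeightOneSpectrum (𝓞 K)))
    (α : HeightOneSpectrum (𝓞 E) → Fin n → ℂ) (β : HeightOneSpectrum (𝓞 K) → Fin (n ^ 4 - 1) → ℂ)
    (T : Finset (HeightOneSpectrum (𝓞 K) × Fin (n ^ 4 - 1)))
    (κ : Fin ((n ^ 4 - 1) * Module.finrank ℚ K) → ℂ) (Q : ℝ) : Prop where
  /-- `S` contains the places which ramify in `E` -/
  unramified : ∀ v : HeightOneSpectrum (𝓞 K), Ramified E v → v ∈ S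
  /-- a bound for the Satake parameters -/
  bound : ∀ w : HeightOneSpectrum (𝓞 E), (∀ v ∈ S, ¬ Above v w) → ∀ i, ‖α w i‖ ≤ (Nm w : ℝ) ^ (1 / 4 : ℝ)
  /-- the bound of Jacquet and Shalika at the places of `S` -/
  ramified : ∀ v ∈ S, ∀ i, ‖β v i‖ < (Nm v : ℝ)
  /-- the removed factors -/
  removed : ∀ x ∈ T, x.1 ∈ S ∧ ‖β x.1 x.2‖ = 1
  /-- the logarithms of the other factors at `S` have nonnegative coefficients -/
  nonneg : ∀ v ∈ S, ∀ k : ℕ, ∃ c : ℝ, 0 ≤ c ∧
    ∑ i, Set.indicator {i | (v, i) ∉ T} (fun i => β v i ^ (k + 1)) i = (c : ℂ)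
  /-- the conductor -/
  one_le : 1 ≤ Q
  /-- the components at infinity are unitary -/
  conj : Multiset.map (fun j => (starRingEnd ℂ) (κ j)) Finset.univ.val = Multiset.map κ Finset.univ.val
  /-- the bound of Jacquet and Shalika at infinity -/
  re : ∀ j, -1 < (κ j).re
  /-- a factor `Γ_ℝ(s)` -/
  zero : ∃ j, κ j = 0
  /-- the adjoint `L`-function of the Asai lift: `F` is the finite part, `Ξ` the completed one -/
  adjoint : ∃ (F Ξ : ℂ → ℂ) (ω : ℂ), Differentiable ℂ F ∧ Differentiable ℂ Ξ ∧ ‖ω‖ = 1 ∧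
    (∀ a b : ℝ, ∃ (C : ℝ) (A : ℕ), ∀ s : ℂ, a ≤ s.re → s.re ≤ b → ‖F s‖ ≤ C * (1 + |s.im|) ^ A) ∧
    (∀ s : ℂ, 1 < s.re → F s * ∏ v ∈ S, ∏ i, (1 - β v i * ((Nm v : ℕ) : ℂ) ^ (-s)) =
      Complex.exp (logAd S α s)) ∧
    (∀ s : ℂ, 1 < s.re → Ξ s = F s * ((Q : ℂ) ^ s * ∏ j, Complex.Gammaℝ (s + κ j))) ∧
    ∀ s : ℂ, Ξ (1 - s) = ω * Ξ s

end Pool.Agent.R398.LI
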