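import Mathlib
import Pool.Agent.R398.LI.Defs
import Pool.Agent.R398.AS.Inf

/-! Bounds for the traces of the Asai lift. -/

set_option autoImplicit false
set_option linter.unusedSectionVars false

namespace Pool.Agent.R398.LI

open NumberField IsDedekindDomain
open Pool.Agent.R398.AS (Nm Above Inert two_le_Nm Nm_pos Nm_le_of_above up above_iff)

variable {K E : Type} [Field K] [NumberField K] [Field E] [NumberField E] [Algebra K E] {n : ℕ}

theorem dvd_of_above {v : HeightOneSpectrum (𝓞 K)} {w : HeightOneSpectrum (𝓞 E)} (h : Above v w) :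
    w.asIdeal ∣ v.asIdeal.map (algebraMap (𝓞 K) (𝓞 E)) := by
  rw [Ideal.dvd_iff_le, Ideal.map_le_iff_le_comap, h]

theorem above_finite (v : HeightOneSpectrum (𝓞 K)) : {w : HeightOneSpectrum (𝓞 E) | Above v w}.Finite :=
  (Ideal.finite_factors (R := 𝓞 E) (Ideal.map_ne_bot_of_ne_bot v.ne_bot)).subset fun _ hw => dvd_of_above hw

theorem prod_Nm_le (h2 : Module.finrank K E = 2) (v : HeightOneSpectrum (𝓞 K)) :
    ∏ w ∈ (above_finite (E := E) v).toFinset, Nm w ≤ Nm v ^ 2 := by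
  classical
  have hN : Ideal.absNorm (v.asIdeal.map (algebraMap (𝓞 K) (𝓞 E))) = Nm v ^ 2 := by
    rw [Ideal.absNorm_algebraMap, ← h2, ← IsFractionRing.finrank_eq (𝓞 K) K (𝓞 E) E]
    rfl
  have hd : ∏ w ∈ (above_finite (E := E) v).toFinset, w.asIdeal ∣ v.asIdeal.map (algebraMap (𝓞 K) (𝓞 E)) := by
    have h3 : ∏ w ∈ (above_finite (E := E) v).toFinset, w.asIdeal =
        ∏ I ∈ (above_finite (E := E) v).toFinset.image fun w => w.asIdeal, I := by
      rw [Finset.prod_image fun a _ b _ hab => HeightOneSpectrum.ext hab]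
    rw [h3]
    refine Finset.prod_primes_dvd _ (fun I hI => ?_) fun I hI => ?_
    · obtain ⟨w, -, rfl⟩ := Finset.mem_image.1 hI
      exact w.prime
    · obtain ⟨w, hw, rfl⟩ := Finset.mem_image.1 hI
      exact dvd_of_above (by simpa using hw)
  have h4 := map_dvd (Ideal.absNorm (S := 𝓞 E)) hd
  rw [map_prod, hN] at h4
  exact Nat.le_of_dvd (by have := two_le_Nm v; positivity) h4

theorem card_above_le (h2 : Module.finrank K E = 2) (v : HeightOneSpectrum (𝓞 K)) :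
    (above_finite (E := E) v).toFinset.card ≤ 2 := by
  have h3 : Nm v ^ (above_finite (E := E) v).toFinset.card ≤ Nm v ^ 2 := by
    refine le_trans ?_ (prod_Nm_le h2 v)
    rw [← Finset.prod_const]
    exact Finset.prod_le_prod (fun _ _ => Nat.zero_le _) fun w hw => Nm_le_of_above (by simpa using hw)
  exact (Nat.pow_le_pow_iff_right (by have := two_le_Nm v; omega)).1 h3

theorem norm_pw_le {a : Fin n → ℂ} {X : ℝ} (ha : ∀ i, ‖a i‖ ≤ X) (k : ℕ) : ‖pw a k‖ ≤ n * X ^ k := by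
  unfold pw
  refine (norm_sum_le _ _).trans ?_
  calc _ ≤ ∑ _i : Fin n, X ^ k := by
        refine Finset.sum_le_sum fun i _ => ?_
        rw [norm_pow]
        exact pow_le_pow_left₀ (norm_nonneg _) (ha i) _
    _ = _ := by simp

theorem norm_asaiPw_sq_le (h2 : Module.finrank K E = 2) {α : HeightOneSpectrum (𝓞 E) → Fin n → ℂ}
    {v : HeightOneSpectrum (𝓞 K)} (hα : ∀ w : HeightOneSpectrum (𝓞 E), Above v w →
      ∀ i, ‖α w i‖ ≤ (Nm w : ℝ) ^ (1 / 4 : ℝ)) (k : ℕ) :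
    ‖asaiPw α v k‖ ^ 2 ≤ ((n : ℝ) ^ 2 + 1) ^ 4 * (Nm v : ℝ) ^ k := by
  classical
  have hX : ∀ w : HeightOneSpectrum (𝓞 E), (0 : ℝ) < (Nm w : ℝ) ^ (1 / 4 : ℝ) := fun w => by
    have := Nm_pos w
    positivity
  -- one factor
  have h1 : ∀ w : HeightOneSpectrum (𝓞 E), Above v w →
      ‖(if Inert E v ∧ Even k then pw (α w) (k / 2) ^ 2 else pw (α w) k : ℂ)‖ ≤
        ((n : ℝ) ^ 2 + 1) * ((Nm w : ℝ) ^ (1 / 4 : ℝ)) ^ k := by
    intro w hw
    split_ifs with h
    · obtain ⟨j, hj⟩ := h.2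
      have e : k / 2 = j := by omega
      rw [e, norm_pow]
      have h3 := norm_pw_le (hα w hw) j
      calc ‖pw (α w) j‖ ^ 2 ≤ (n * ((Nm w : ℝ) ^ (1 / 4 : ℝ)) ^ j) ^ 2 :=
            pow_le_pow_left₀ (norm_nonneg _) h3 2
        _ = (n : ℝ) ^ 2 * ((Nm w : ℝ) ^ (1 / 4 : ℝ)) ^ k := by rw [hj]; ring
        _ ≤ _ := mul_le_mul_of_nonneg_right (by linarith) (pow_nonneg (hX w).le _)
    · refine (norm_pw_le (hα w hw) k).trans ?_
      refine mul_le_mul_of_nonneg_right ?_ (pow_nonneg (hX w).le _)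
      nlinarith [sq_nonneg ((n : ℝ) - 1)]
  have h3 : asaiPw α v k = ∏ w ∈ (above_finite (E := E) v).toFinset,
      (if Inert E v ∧ Even k then pw (α w) (k / 2) ^ 2 else pw (α w) k : ℂ) := by
    unfold asaiPw
    rw [finprod_mem_eq_finite_toFinset_prod _ (above_finite v)]
  have h4 : ‖asaiPw α v k‖ ≤ ((n : ℝ) ^ 2 + 1) ^ 2 * (((Nm v : ℝ) ^ 2) ^ (1 / 4 : ℝ)) ^ k := by
    rw [h3, norm_prod]
    calc _ ≤ ∏ w ∈ (above_finite (E := E) v).toFinset, (((n : ℝ) ^ 2 + 1) * ((Nm w : ℝ) ^ (1 / 4 : ℝ)) ^ k) :=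
          Finset.prod_le_prod (fun _ _ => norm_nonneg _) fun w hw => h1 w (by simpa using hw)
      _ = ((n : ℝ) ^ 2 + 1) ^ (above_finite (E := E) v).toFinset.card *
          ((∏ w ∈ (above_finite (E := E) v).toFinset, (Nm w : ℝ)) ^ (1 / 4 : ℝ)) ^ k := by
          rw [Finset.prod_mul_distrib, Finset.prod_const, Finset.prod_pow,
            Real.finsetProd_rpow _ _ fun w _ => (Nm_pos w).le]
      _ ≤ _ := by
          have h5 : (∏ w ∈ (above_finite (E := E) v).toFinset, (Nm w : ℝ)) ≤ (Nm v : ℝ) ^ 2 := by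
            exact_mod_cast prod_Nm_le h2 v
          have h6 : (0 : ℝ) ≤ ∏ w ∈ (above_finite (E := E) v).toFinset, (Nm w : ℝ) :=
            Finset.prod_nonneg fun w _ => (Nm_pos w).le
          refine mul_le_mul (pow_le_pow_right₀ (by nlinarith) (card_above_le h2 v))
            (pow_le_pow_left₀ (by positivity) (Real.rpow_le_rpow h6 h5 (by norm_num)) _) (by positivity)
            (by positivity)
  have h5 : (0 : ℝ) < Nm v := Nm_pos v
  calc ‖asaiPw α v k‖ ^ 2 ≤ (((n : ℝ) ^ 2 + 1) ^ 2 * (((Nm v : ℝ) ^ 2) ^ (1 / 4 : ℝ)) ^ k) ^ 2 :=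
        pow_le_pow_left₀ (norm_nonneg _) h4 2
    _ = ((n : ℝ) ^ 2 + 1) ^ 4 * ((((Nm v : ℝ) ^ 2) ^ (1 / 4 : ℝ)) ^ 2) ^ k := by ring
    _ = _ := by
        congr 2
        rw [← Real.rpow_natCast (Nm v : ℝ) 2, ← Real.rpow_mul h5.le, ← Real.rpow_natCast, ← Real.rpow_mul h5.le]
        norm_num

theorem asaiPw_inert {α : HeightOneSpectrum (𝓞 E) → Fin n → ℂ} {v : HeightOneSpectrum (𝓞 K)}
    (h : Inert E v) {k : ℕ} (hk : Odd k) : asaiPw α v k = pw (α (up v h)) k := by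
  classical
  unfold asaiPw
  have h1 : {w : HeightOneSpectrum (𝓞 E) | Above v w} = {up v h} := by
    ext w
    simp only [Set.mem_ofPred_eq, Set.mem_singleton_iff]
    exact above_iff h w
  rw [h1, finprod_mem_singleton, if_neg]
  rintro ⟨_, h3⟩
  exact (Nat.not_even_iff_odd.2 hk) h3

theorem chi_cases (v : HeightOneSpectrum (𝓞 K)) : chi E v = -1 ∨ chi E v = 0 ∨ chi E v = 1 := by
  classical
  unfold chi
  split_ifs <;> simp

theorem chi_inert {v : HeightOneSpectrum (𝓞 K)} (h : Inert E v) : chi E v = -1 := by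
  classical
  unfold chi
  rw [if_pos h]

theorem chi_nonneg {v : HeightOneSpectrum (𝓞 K)} (h : ¬ Inert E v) : 0 ≤ chi E v := by
  classical
  unfold chi
  rw [if_neg h]
  split_ifs <;> norm_num

theorem abs_chi_le (v : HeightOneSpectrum (𝓞 K)) : |chi E v| ≤ 1 := by
  rcases chi_cases (E := E) v with h | h | h <;> rw [h] <;> norm_num

theorem chi_unramified {v : HeightOneSpectrum (𝓞 K)} (h : ¬ Inert E v) (h' : ¬ Ramified E v) : chi E v = 1 := by
  classical
  unfold chi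
  rw [if_neg h, if_neg h']

end Pool.Agent.R398.LI
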