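import Pool.Agent.R398.LI.Gen
import Pool.Agent.R398.LI.Loc

/-! The `L`-function of the quadratic character. -/

set_option autoImplicit false
set_option linter.unusedSectionVars false

namespace Pool.Agent.R398.LI

open NumberField IsDedekindDomain Filter Topology
open Pool.Agent.W189.TP (DS norm_term)
open Pool.Agent.TH861.GL3 (PL qq two_le_qq qq_pos one_lt_qq)
open Pool.Agent.TH949.LT
open Pool.Agent.TH949.UL
open Pool.Agent.Y725.UG (cut pk_append ldata_mul)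
open Pool.Agent.R398.AS (Nm Above Inert two_le_Nm Nm_pos Nm_le_of_above up above_iff)

section gen

variable {K : Type} [Field K] [NumberField K] {S : Finset (HeightOneSpectrum (𝓞 K))} {B B' : ℝ}
  {t t' : PL S × ℕ → ℝ}

theorem summable_t (h : ∀ x, |t x| ≤ B * (qq x.1.1 : ℝ) ^ (x.2 + 1)) {s : ℂ} (hs : 5 / 2 ≤ s.re) :
    Summable fun x : PL S × ℕ =>
      ((t x / ((x.2 : ℝ) + 1) : ℝ) : ℂ) * (((qq x.1.1 : ℕ) : ℂ) ^ (-s)) ^ (x.2 + 1) := by
  -- a function on all places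
  classical
  let β : HeightOneSpectrum (𝓞 K) → Fin 0 → ℂ := fun _ i => i.elim0
  have hL : LocG B t β ∅ := by
    refine ⟨h, fun v _ i => i.elim0, fun x hx => by simp at hx, fun v _ k => ⟨0, le_rfl, by simp⟩⟩
  have h1 := (summable_dT hL hs).comp_injective (jSum_bij (S := S)).1
  have h2 := h1.comp_injective (Sum.inl_injective (β := S × ℕ))
  refine h2.congr fun x => ?_
  show (dT t (cut β ∅) (x.1.1, x.2) : ℂ) * Complex.exp (-(s * LV (x.1.1, x.2))) = _
  rw [cexp_LV, dT_P x.1.2]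

theorem logT_add (h : ∀ x, |t x| ≤ B * (qq x.1.1 : ℝ) ^ (x.2 + 1))
    (h' : ∀ x, |t' x| ≤ B' * (qq x.1.1 : ℝ) ^ (x.2 + 1)) {s : ℂ} (hs : 5 / 2 ≤ s.re) :
    logT (fun x => t x + t' x) s = logT t s + logT t' s := by
  unfold logT
  rw [← (summable_t h hs).tsum_add (summable_t h' hs)]
  refine tsum_congr fun x => ?_
  push_cast
  ring

end gen

variable {K E : Type} [Field K] [NumberField K] [Field E] [NumberField E] [Algebra K E] {n r : ℕ}
  {S : Finset (HeightOneSpectrum (𝓞 K))}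

theorem one_le_qk (v : HeightOneSpectrum (𝓞 K)) (k : ℕ) : 1 ≤ (qq v : ℝ) ^ k := one_le_pow₀ (one_lt_qq v).le

theorem abs_chi_pow_le (v : HeightOneSpectrum (𝓞 K)) (k : ℕ) : |chi E v ^ k| ≤ 1 := by
  rw [abs_pow]
  exact pow_le_one₀ (abs_nonneg _) (abs_chi_le v)

theorem one_div_le {x : ℝ} (k : ℕ) : |x / ((k : ℝ) + 1)| ≤ |x| := by
  have hk : (1 : ℝ) ≤ (k : ℝ) + 1 := by
    have : (0 : ℝ) ≤ k := Nat.cast_nonneg _
    linarith
  rw [abs_div, abs_of_pos (by linarith : (0 : ℝ) < (k : ℝ) + 1)]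
  exact div_le_self (abs_nonneg _) hk

variable (E) in
/-- the coefficients -/
noncomputable def dC (x : PV K) : ℝ := chi E x.1 ^ (x.2 + 1) / ((x.2 : ℝ) + 1)

theorem dC_le (x : PV K) : |dC E x| ≤ 1 * Real.exp (LV x) := by
  unfold dC
  rw [exp_LV]
  refine (one_div_le x.2).trans ?_
  have := abs_chi_pow_le (E := E) x.1 (x.2 + 1)
  have := one_le_qk x.1 (x.2 + 1)
  linarith

theorem summable_dC {s : ℂ} (hs : 5 / 2 ≤ s.re) :
    Summable fun x : PV K => (dC E x : ℂ) * Complex.exp (-(s * LV x)) := by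
  refine Summable.of_norm ((d_sum (dC_le (E := E)) hs).1.congr fun x => ?_)
  rw [norm_term]

theorem logChi_eq (s : ℂ) : logChi (K := K) E s = ∑' x : PV K, (dC E x : ℂ) * Complex.exp (-(s * LV x)) := by
  unfold logChi
  refine tsum_congr fun x => ?_
  rw [cexp_LV]
  rfl

theorem logChi_part (s : ℂ) : logT (fun x : PL S × ℕ => chi E x.1.1 ^ (x.2 + 1)) s =
    ∑' x : PL S × ℕ, (dC E (x.1.1, x.2) : ℂ) * Complex.exp (-(s * LV (x.1.1, x.2))) := by
  unfold logT
  refine tsum_congr fun x => ?_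
  rw [cexp_LV]
  rfl

theorem exp_SC {s : ℂ} (hs : 5 / 2 ≤ s.re) :
    Complex.exp (∑' x : S × ℕ, (dC E (x.1.1, x.2) : ℂ) * Complex.exp (-(s * LV (x.1.1, x.2)))) =
      (∏ v ∈ S, ∏ _i : Fin 1, (1 - (chi E v : ℂ) * ((qq v : ℕ) : ℂ) ^ (-s)))⁻¹ := by
  refine exp_S' (S := S) (m := 1) (β := fun v _ => (chi E v : ℂ))
    (e := fun x : S × ℕ => (dC E (x.1.1, x.2) : ℂ) * Complex.exp (-(s * LV (x.1.1, x.2))))
    (fun v hv i => ?_) hs (fun v k => ?_) ?_
  · rw [Complex.norm_real, Real.norm_eq_abs]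
    exact (abs_chi_le v).trans_lt (one_lt_qq v)
  · simp only
    rw [cexp_LV]
    unfold dC
    simp
  · have hinj : Function.Injective fun x : S × ℕ => ((x.1.1, x.2) : PV K) := by
      intro x y hxy
      exact Prod.ext (Subtype.ext (Prod.mk.inj hxy).1) (Prod.mk.inj hxy).2
    exact (summable_dC (E := E) hs).comp_injective hinj

/-- the `L`-function of the quadratic character and the bad places -/
theorem logChi_split {s : ℂ} (hs : 5 / 2 ≤ s.re) :
    Complex.exp (logChi (K := K) E s) * ∏ v ∈ S, (1 - (chi E v : ℂ) * ((qq v : ℕ) : ℂ) ^ (-s)) =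
      Complex.exp (logT (fun x : PL S × ℕ => chi E x.1.1 ^ (x.2 + 1)) s) := by
  have h4 := exp_SC (E := E) (S := S) hs
  have h5 : ∏ v ∈ S, ∏ _i : Fin 1, (1 - (chi E v : ℂ) * ((qq v : ℕ) : ℂ) ^ (-s)) =
      ∏ v ∈ S, (1 - (chi E v : ℂ) * ((qq v : ℕ) : ℂ) ^ (-s)) :=
    Finset.prod_congr rfl fun v _ => Fin.prod_univ_one _
  rw [h5] at h4
  rw [logChi_eq, logChi_part, tsum_split (S := S) (summable_dC hs), Complex.exp_add, h4, mul_assoc,
    inv_mul_cancel₀, mul_one]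
  intro h0
  rw [h0, inv_zero] at h4
  exact Complex.exp_ne_zero _ h4

end Pool.Agent.R398.LI
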