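import Pool.Agent.Y725.UG.Many

/-! The uniform Landau lemma for several Euler products at once, for general coefficients. -/

set_option autoImplicit false
set_option linter.unusedSectionVars false

namespace Pool.Agent.R398.LI

open NumberField IsDedekindDomain Filter Topology
open Pool.Agent.W189.TP (DS norm_term)
open Pool.Agent.TH861.GL3 (PL qq two_le_qq qq_pos one_lt_qq)
open Pool.Agent.TH949.LT
open Pool.Agent.TH949.UL
open Pool.Agent.Y725.UG

universe u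

/-- What is used of the local data: `t x` at `x = (v, k)` is the coefficient at `v ∉ S`; at `v ∈ S` the `β v i` are the
reciprocal roots of the local factor; `T` is the set of the pairs `(v, i)` for which the factor is removed. -/
structure LocG {K : Type u} [Field K] [NumberField K] {S : Finset (HeightOneSpectrum (𝓞 K))} {r : ℕ} (B : ℝ)
    (t : PL S × ℕ → ℝ) (β : HeightOneSpectrum (𝓞 K) → Fin r → ℂ)
    (T : Finset (HeightOneSpectrum (𝓞 K) × Fin r)) : Prop where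
  bound : ∀ x, |t x| ≤ B * (qq x.1.1 : ℝ) ^ (x.2 + 1)
  ramified : ∀ v ∈ S, ∀ i, ‖β v i‖ < (qq v : ℝ)
  removed : ∀ x ∈ T, x.1 ∈ S ∧ ‖β x.1 x.2‖ = 1
  nonneg : ∀ v ∈ S, ∀ k : ℕ, ∃ c : ℝ, 0 ≤ c ∧ ∑ i, cut β T v i ^ (k + 1) = (c : ℂ)

section

variable {K : Type u} [Field K] [NumberField K] {S : Finset (HeightOneSpectrum (𝓞 K))} {r : ℕ} {B : ℝ}
  {t : PL S × ℕ → ℝ} {β : HeightOneSpectrum (𝓞 K) → Fin r → ℂ} {T : Finset (HeightOneSpectrum (𝓞 K) × Fin r)}

/-- the logarithm of the partial Euler product -/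
noncomputable def logT (t : PL S × ℕ → ℝ) (s : ℂ) : ℂ :=
  ∑' x : PL S × ℕ, ((t x / ((x.2 : ℝ) + 1) : ℝ) : ℂ) * (((qq x.1.1 : ℕ) : ℂ) ^ (-s)) ^ (x.2 + 1)

open Classical in
/-- all coefficients -/
noncomputable def dT (t : PL S × ℕ → ℝ) (β : HeightOneSpectrum (𝓞 K) → Fin r → ℂ) (x : PV K) : ℝ :=
  if h : x.1 ∈ S then (∑ i, β x.1 i ^ (x.2 + 1)).re / ((x.2 : ℝ) + 1)
  else t (⟨x.1, h⟩, x.2) / ((x.2 : ℝ) + 1)

theorem dT_S {v : HeightOneSpectrum (𝓞 K)} (hv : v ∈ S) (k : ℕ) :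
    dT t β (v, k) = (∑ i, β v i ^ (k + 1)).re / ((k : ℝ) + 1) := dif_pos hv

theorem dT_P {v : HeightOneSpectrum (𝓞 K)} (hv : v ∉ S) (k : ℕ) :
    dT t β (v, k) = t (⟨v, hv⟩, k) / ((k : ℝ) + 1) := dif_neg hv

theorem cut_bound (h : LocG B t β T) : ∀ v ∈ S, ∀ i, ‖cut β T v i‖ < (qq v : ℝ) := by
  classical
  intro v hv i
  unfold cut
  split_ifs
  · rw [norm_zero]
    exact qq_pos v
  · exact h.ramified v hv i

theorem dT_le (h : LocG B t β T) (x : PV K) :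
    |dT t (cut β T) x| ≤ (|B| + r) * Real.exp (LV x) := by
  have hq := one_lt_qq x.1
  have hk : (1 : ℝ) ≤ (x.2 : ℝ) + 1 := by
    have : (0 : ℝ) ≤ x.2 := Nat.cast_nonneg _
    linarith
  have hE : (0 : ℝ) < (qq x.1 : ℝ) ^ (x.2 + 1) := by
    have := qq_pos x.1
    positivity
  unfold dT
  rw [exp_LV]
  split_ifs with hx
  · have h1 : |(∑ i, cut β T x.1 i ^ (x.2 + 1)).re| ≤ r * (qq x.1 : ℝ) ^ (x.2 + 1) := by
      refine (Complex.abs_re_le_norm _).trans ((norm_sum_le _ _).trans ?_)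
      calc _ ≤ ∑ _i : Fin r, (qq x.1 : ℝ) ^ (x.2 + 1) := by
            refine Finset.sum_le_sum fun i _ => ?_
            rw [norm_pow]
            exact pow_le_pow_left₀ (norm_nonneg _) (cut_bound h x.1 hx i).le _
        _ = r * (qq x.1 : ℝ) ^ (x.2 + 1) := by simp
    rw [abs_div, abs_of_pos (by linarith : (0 : ℝ) < (x.2 : ℝ) + 1)]
    refine (div_le_self (abs_nonneg _) hk).trans (h1.trans ?_)
    refine mul_le_mul_of_nonneg_right ?_ hE.le
    linarith [abs_nonneg B]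
  · have h1 := h.bound (⟨x.1, hx⟩, x.2)
    rw [abs_div, abs_of_pos (by linarith : (0 : ℝ) < (x.2 : ℝ) + 1)]
    refine (div_le_self (abs_nonneg _) hk).trans (h1.trans ?_)
    refine mul_le_mul_of_nonneg_right ?_ hE.le
    have := le_abs_self B
    have : (0 : ℝ) ≤ r := Nat.cast_nonneg _
    linarith

theorem summable_dT (h : LocG B t β T) {s : ℂ} (hs : 5 / 2 ≤ s.re) :
    Summable fun x => (dT t (cut β T) x : ℂ) * Complex.exp (-(s * LV x)) := by
  refine Summable.of_norm ((d_sum (dT_le h) hs).1.congr fun x => ?_)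
  rw [norm_term]

theorem exp_S_dT (h : LocG B t β T) {s : ℂ} (hs : 5 / 2 ≤ s.re) :
    Complex.exp (∑' x : S × ℕ, (dT t (cut β T) (x.1.1, x.2) : ℂ) * Complex.exp (-(s * LV (x.1.1, x.2)))) =
      (∏ v ∈ S, ∏ i, (1 - cut β T v i * ((qq v : ℕ) : ℂ) ^ (-s)))⁻¹ := by
  refine exp_S' (e := fun x : S × ℕ => (dT t (cut β T) (x.1.1, x.2) : ℂ) *
    Complex.exp (-(s * LV (x.1.1, x.2)))) (cut_bound h) hs (fun v k => ?_) ?_
  · obtain ⟨c, hc0, hc⟩ := h.nonneg v.1 v.2 k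
    simp only
    rw [dT_S v.2, cexp_LV, hc, Complex.ofReal_re]
    push_cast
    rfl
  · have h1 := (summable_dT h hs).comp_injective
      (jSum_bij (S := S)).1
    have h2 := h1.comp_injective (Sum.inr_injective (α := PL S × ℕ))
    exact h2

theorem exp_all_dT (h : LocG B t β T) {s : ℂ} (hs : 5 / 2 ≤ s.re) :
    Complex.exp (DS (dT t (cut β T)) LV s) * (∏ v ∈ S, ∏ i, (1 - cut β T v i * ((qq v : ℕ) : ℂ) ^ (-s))) =
      Complex.exp (logT t s) := by
  have h1 : DS (dT t (cut β T)) LV s = logT t s +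
      ∑' x : S × ℕ, (dT t (cut β T) (x.1.1, x.2) : ℂ) * Complex.exp (-(s * LV (x.1.1, x.2))) := by
    unfold DS
    rw [tsum_split (S := S) (summable_dT h hs)]
    congr 1
    unfold logT
    refine tsum_congr fun x => ?_
    rw [cexp_LV, dT_P x.1.2]
  rw [h1, Complex.exp_add, exp_S_dT h hs, mul_assoc, inv_mul_cancel₀, mul_one]
  intro h0
  have h2 := exp_S_dT h hs
  rw [h0, inv_zero] at h2
  exact Complex.exp_ne_zero _ h2

theorem single (h : LocG B t β T) {G : ℂ → ℂ} (hE : ∀ s : ℂ, 5 / 2 ≤ s.re →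
    G s * ∏ v ∈ S, ∏ i, (1 - β v i * ((qq v : ℕ) : ℂ) ^ (-s)) = Complex.exp (logT t s)) {s : ℂ}
    (hs : 5 / 2 ≤ s.re) :
    G s * ∏ x ∈ T, (1 - β x.1 x.2 * ((qq x.1 : ℕ) : ℂ) ^ (-s)) =
      Complex.exp (DS (dT t (cut β T)) LV s) := by
  classical
  have h1 := hE s hs
  have h2 := exp_all_dT h hs
  have h3 : ∏ v ∈ S, ∏ i, (1 - β v i * ((qq v : ℕ) : ℂ) ^ (-s)) =
      (∏ v ∈ S, ∏ i, (1 - cut β T v i * ((qq v : ℕ) : ℂ) ^ (-s))) *
        ∏ x ∈ T, (1 - β x.1 x.2 * ((qq x.1 : ℕ) : ℂ) ^ (-s)) := by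
    rw [← Finset.prod_product' S Finset.univ (fun v i => 1 - β v i * ((qq v : ℕ) : ℂ) ^ (-s)),
      ← Finset.prod_product' S Finset.univ (fun v i => 1 - cut β T v i * ((qq v : ℕ) : ℂ) ^ (-s))]
    have hsub : T ⊆ S ×ˢ Finset.univ := fun x hx => Finset.mem_product.2 ⟨(h.removed x hx).1, Finset.mem_univ _⟩
    have h4 : ∏ x ∈ T, (1 - β x.1 x.2 * ((qq x.1 : ℕ) : ℂ) ^ (-s)) =
        ∏ x ∈ S ×ˢ Finset.univ, if x ∈ T then (1 - β x.1 x.2 * ((qq x.1 : ℕ) : ℂ) ^ (-s)) else 1 := by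
      rw [Finset.prod_ite_mem, Finset.inter_eq_right.2 hsub]
    rw [h4, ← Finset.prod_mul_distrib]
    refine Finset.prod_congr rfl fun x _ => ?_
    obtain ⟨v, i⟩ := x
    unfold cut
    by_cases hT : (v, i) ∈ T
    · rw [if_pos hT, if_pos hT]
      simp
    · rw [if_neg hT, if_neg hT]
      simp
  have hne : ∏ v ∈ S, ∏ i, (1 - cut β T v i * ((qq v : ℕ) : ℂ) ^ (-s)) ≠ 0 := by
    intro h0
    rw [h0, mul_zero] at h2
    exact Complex.exp_ne_zero _ h2.symm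
  rw [h3, ← h2] at h1
  refine mul_right_cancel₀ hne ?_
  linear_combination h1

end

theorem emb_apply {K : Type u} [Field K] [NumberField K] (m r : ℕ)
    (p : Σ _ : Fin m, HeightOneSpectrum (𝓞 K) × Fin r) :
    emb m r p = (p.2.1, finProdFinEquiv (p.1, p.2.2)) := rfl

theorem many (K : Type u) [Field K] [NumberField K] (m r N : ℕ) (B : ℝ) {ε : ℝ} (hε : 0 < ε) :
    ∃ A : ℝ, 0 < A ∧ ∀ (S : Finset (HeightOneSpectrum (𝓞 K))) (t : Fin m → PL S × ℕ → ℝ)
      (β : Fin m → HeightOneSpectrum (𝓞 K) → Fin r → ℂ) (T : Fin m → Finset (HeightOneSpectrum (𝓞 K) × Fin r))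
      (κ : Fin m → Fin N → ℂ) (Q : Fin m → ℝ) (G : Fin m → ℂ → ℂ),
      (∀ i, LocG B (t i) (β i) (T i)) → (∀ i, LData N (κ i) (Q i) (G i)) → (∃ i j, κ i j = 0) →
      (∀ i, ∀ s : ℂ, 5 / 2 ≤ s.re →
        G i s * ∏ v ∈ S, ∏ j, (1 - β i v j * ((qq v : ℕ) : ℂ) ^ (-s)) = Complex.exp (logT (t i) s)) →
      ∃ (v : PL S) (k : ℕ),
        (qq v.1 : ℝ) ^ (k + 1) ≤ A * (∏ i, (Q i ^ 2 * PK (κ i) * ∏ x ∈ T i, (qq x.1 : ℝ))) ^ (1 + ε) ∧
        ∑ i, t i (v, k) < 0 := by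
  classical
  obtain ⟨A, hA0, hA⟩ := euler.{u} K (m * N) (m * r) (den_one_pow m) (B := m * (|B| + r))
    (by positivity) hε
  refine ⟨A, hA0, fun S t β T κ Q G h hG hκ hE => ?_⟩
  obtain ⟨κ', hL', hPK, hz⟩ := ldata_prod N m κ Q G hG
  obtain ⟨x, hx, hxl⟩ := hA (fun x => ∑ i, dT (t i) (cut (β i) (T i)) x) κ' (∏ i, Q i)
    (fun s => ∏ i, G i s) ((Finset.univ.sigma T).map (emb m r))
    (fun x => β (finProdFinEquiv.symm x.2).1 x.1 (finProdFinEquiv.symm x.2).2)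
    (by
      intro x hx
      rw [Finset.mem_map] at hx
      obtain ⟨p, hp, rfl⟩ := hx
      rw [Finset.mem_sigma] at hp
      have := ((h p.1).removed p.2 hp.2).2
      simp only [emb_apply, Equiv.symm_apply_apply]
      exact this)
    hL' (hz hκ)
    (fun x => by
      calc |∑ i, dT (t i) (cut (β i) (T i)) x| ≤ ∑ i, |dT (t i) (cut (β i) (T i)) x| :=
            Finset.abs_sum_le_sum_abs _ _
        _ ≤ ∑ _i : Fin m, (|B| + r) * Real.exp (LV x) :=
            Finset.sum_le_sum fun i _ => dT_le (h i) x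
        _ = _ := by
            rw [Finset.sum_const, Finset.card_univ, Fintype.card_fin, nsmul_eq_mul]
            ring)
    (fun s hs => by
      rw [Finset.prod_map, Finset.prod_sigma, ← Finset.prod_mul_distrib]
      have h1 : DS (fun x => ∑ i, dT (t i) (cut (β i) (T i)) x) LV s =
          ∑ i, DS (dT (t i) (cut (β i) (T i))) LV s := by
        unfold DS
        rw [← Summable.tsum_finsetSum fun i _ => summable_dT (h i) hs]
        refine tsum_congr fun x => ?_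
        rw [Complex.ofReal_sum, Finset.sum_mul]
      rw [h1, Complex.exp_sum, one_pow, one_mul]
      refine Finset.prod_congr rfl fun i _ => ?_
      rw [← single (h i) (hE i) hs]
      congr 1
      refine Finset.prod_congr rfl fun x _ => ?_
      simp only [emb_apply, Equiv.symm_apply_apply])
  have hprod : (∏ i, Q i) ^ 2 * PK κ' * ∏ x ∈ (Finset.univ.sigma T).map (emb m r), (qq x.1 : ℝ) =
      ∏ i, (Q i ^ 2 * PK (κ i) * ∏ x ∈ T i, (qq x.1 : ℝ)) := by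
    rw [Finset.prod_map, Finset.prod_sigma, hPK, ← Finset.prod_pow, ← Finset.prod_mul_distrib,
      ← Finset.prod_mul_distrib]
    rfl
  rw [hprod] at hxl
  obtain ⟨v, k⟩ := x
  simp only at hx hxl
  by_cases hxS : v ∈ S
  · exfalso
    refine absurd hx (not_lt.2 (Finset.sum_nonneg fun i _ => ?_))
    rw [dT_S hxS]
    obtain ⟨c, hc, hc2⟩ := (h i).nonneg v hxS k
    rw [hc2, Complex.ofReal_re]
    positivity
  · refine ⟨⟨v, hxS⟩, k, hxl, ?_⟩
    have h1 : ∀ i, dT (t i) (cut (β i) (T i)) (v, k) = t i (⟨v, hxS⟩, k) / ((k : ℝ) + 1) := fun i => dT_P hxS k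
    simp only [h1] at hx
    rw [← Finset.sum_div] at hx
    have hk : (0 : ℝ) < (k : ℝ) + 1 := by positivity
    rw [div_lt_iff₀ hk, zero_mul] at hx
    exact hx

end Pool.Agent.R398.LI
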