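import Pool.Agent.R398.LI.Chi

/-! The product of the adjoint `L`-functions of Asai lifts and of the `L`-function of the quadratic character. -/

set_option autoImplicit false
set_option linter.unusedSectionVars false
set_option linter.unusedVariables false

namespace Pool.Agent.R398.LI

open NumberField IsDedekindDomain Filter Topology
open Pool.Agent.W189.TP (DS norm_term)
open Pool.Agent.TH861.GL3 (PL qq two_le_qq qq_pos one_lt_qq)
open Pool.Agent.TH949.LT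
open Pool.Agent.TH949.UL
open Pool.Agent.Y725.UG (cut pk_append ldata_mul)
open Pool.Agent.R398.AS (Nm Above Inert two_le_Nm Nm_pos Nm_le_of_above up above_iff)

variable {K E : Type} [Field K] [NumberField K] [Field E] [NumberField E] [Algebra K E] {n r : ℕ}
  {S : Finset (HeightOneSpectrum (𝓞 K))}

variable (E) in
/-- the reciprocal roots, with the one of the quadratic character -/
noncomputable def bb (β : HeightOneSpectrum (𝓞 K) → Fin r → ℂ) (v : HeightOneSpectrum (𝓞 K)) : Fin (r + 1) → ℂ :=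
  Fin.cons (chi E v : ℂ) (β v)

variable (E) in
open scoped Classical in
/-- the inert places of `S` -/
noncomputable def SI (S : Finset (HeightOneSpectrum (𝓞 K))) : Finset (HeightOneSpectrum (𝓞 K)) :=
  S.filter fun v => Inert E v

/-- embedding -/
def e0 (K : Type) [Field K] [NumberField K] (r : ℕ) :
    HeightOneSpectrum (𝓞 K) ↪ HeightOneSpectrum (𝓞 K) × Fin (r + 1) :=
  ⟨fun v => (v, 0), fun _ _ h => (Prod.mk.inj h).1⟩

/-- embedding -/
def e1 (K : Type) [Field K] [NumberField K] (r : ℕ) :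
    HeightOneSpectrum (𝓞 K) × Fin r ↪ HeightOneSpectrum (𝓞 K) × Fin (r + 1) :=
  ⟨fun x => (x.1, x.2.succ), fun x y h => Prod.ext (Prod.mk.inj h).1 (Fin.succ_injective _ (Prod.mk.inj h).2)⟩

theorem disj01 (A : Finset (HeightOneSpectrum (𝓞 K))) (T : Finset (HeightOneSpectrum (𝓞 K) × Fin r)) :
    Disjoint (A.map (e0 K r)) (T.map (e1 K r)) := by
  rw [Finset.disjoint_left]
  intro x h1 h2
  obtain ⟨v, -, rfl⟩ := Finset.mem_map.1 h1
  obtain ⟨y, -, hy⟩ := Finset.mem_map.1 h2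
  exact absurd (Prod.mk.inj hy).2 (Fin.succ_ne_zero _)

variable (E) in
/-- the removed factors, with the ones of the quadratic character -/
noncomputable def TT (S : Finset (HeightOneSpectrum (𝓞 K))) (T : Finset (HeightOneSpectrum (𝓞 K) × Fin r)) :
    Finset (HeightOneSpectrum (𝓞 K) × Fin (r + 1)) :=
  ((SI E S).map (e0 K r)).disjUnion (T.map (e1 K r)) (disj01 _ _)

theorem mem_TT_zero {T : Finset (HeightOneSpectrum (𝓞 K) × Fin r)} {v : HeightOneSpectrum (𝓞 K)} :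
    (v, (0 : Fin (r + 1))) ∈ TT E S T ↔ v ∈ S ∧ Inert E v := by
  classical
  unfold TT
  rw [Finset.mem_disjUnion]
  constructor
  · rintro (h | h)
    · obtain ⟨u, hu, h1⟩ := Finset.mem_map.1 h
      have : u = v := (Prod.mk.inj h1).1
      subst this
      exact (Finset.mem_filter.1 hu)
    · obtain ⟨y, -, hy⟩ := Finset.mem_map.1 h
      exact absurd (Prod.mk.inj hy).2 (Fin.succ_ne_zero _)
  · intro h
    left
    exact Finset.mem_map.2 ⟨v, Finset.mem_filter.2 h, rfl⟩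

theorem mem_TT_succ {T : Finset (HeightOneSpectrum (𝓞 K) × Fin r)} {v : HeightOneSpectrum (𝓞 K)} {i : Fin r} :
    (v, i.succ) ∈ TT E S T ↔ (v, i) ∈ T := by
  unfold TT
  rw [Finset.mem_disjUnion]
  constructor
  · rintro (h | h)
    · obtain ⟨u, hu, h1⟩ := Finset.mem_map.1 h
      exact absurd (Prod.mk.inj h1).2.symm (Fin.succ_ne_zero _)
    · obtain ⟨y, hy, h1⟩ := Finset.mem_map.1 h
      have e : y = (v, i) := Prod.ext (Prod.mk.inj h1).1 (Fin.succ_injective _ (Prod.mk.inj h1).2)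
      exact e ▸ hy
  · intro h
    right
    exact Finset.mem_map.2 ⟨(v, i), h, rfl⟩

theorem prod_TT (T : Finset (HeightOneSpectrum (𝓞 K) × Fin r)) :
    ∏ x ∈ TT E S T, (qq x.1 : ℝ) = (∏ v ∈ SI E S, (qq v : ℝ)) * ∏ x ∈ T, (qq x.1 : ℝ) := by
  unfold TT
  rw [Finset.prod_disjUnion, Finset.prod_map, Finset.prod_map]
  rfl

variable {α : HeightOneSpectrum (𝓞 E) → Fin n → ℂ} {β : HeightOneSpectrum (𝓞 K) → Fin (n ^ 4 - 1) → ℂ}
  {T : Finset (HeightOneSpectrum (𝓞 K) × Fin (n ^ 4 - 1))} {κ : Fin ((n ^ 4 - 1) * Module.finrank ℚ K) → ℂ} {Q : ℝ}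

/-- the coefficients -/
noncomputable def tA (S : Finset (HeightOneSpectrum (𝓞 K))) (α : HeightOneSpectrum (𝓞 E) → Fin n → ℂ)
    (x : PL S × ℕ) : ℝ := ‖asaiPw α x.1.1 (x.2 + 1)‖ ^ 2 - 1

theorem tA_le (h2 : Module.finrank K E = 2) (h : AsaiGL S α β T κ Q) (x : PL S × ℕ) :
    |tA S α x| ≤ (((n : ℝ) ^ 2 + 1) ^ 4 + 1) * (qq x.1.1 : ℝ) ^ (x.2 + 1) := by
  have h1 : ‖asaiPw α x.1.1 (x.2 + 1)‖ ^ 2 ≤ ((n : ℝ) ^ 2 + 1) ^ 4 * (qq x.1.1 : ℝ) ^ (x.2 + 1) := by
    refine norm_asaiPw_sq_le h2 (fun w hw i => h.bound w (fun v hv hc => ?_) i) _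
    have e : v = x.1.1 := HeightOneSpectrum.ext (hc.symm.trans hw)
    exact x.1.2 (e ▸ hv)
  have h3 := one_le_qk x.1.1 (x.2 + 1)
  have h4 : 0 ≤ ‖asaiPw α x.1.1 (x.2 + 1)‖ ^ 2 := sq_nonneg _
  unfold tA
  rw [abs_le]
  constructor <;> nlinarith

theorem chi_le (x : PL S × ℕ) : |chi E x.1.1 ^ (x.2 + 1)| ≤ 1 * (qq x.1.1 : ℝ) ^ (x.2 + 1) := by
  have := abs_chi_pow_le (E := E) x.1.1 (x.2 + 1)
  have := one_le_qk x.1.1 (x.2 + 1)
  linarith

theorem locG (h2 : Module.finrank K E = 2) (h : AsaiGL S α β T κ Q) :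
    LocG (((n : ℝ) ^ 2 + 1) ^ 4 + 2) (fun x : PL S × ℕ => tA S α x + chi E x.1.1 ^ (x.2 + 1)) (bb E β) (TT E S T) := by
  classical
  refine ⟨fun x => ?_, fun v hv i => ?_, fun x hx => ?_, fun v hv k => ?_⟩
  · refine (abs_add_le _ _).trans ?_
    have := tA_le h2 h x
    have := chi_le (E := E) x
    linarith
  · refine Fin.cases ?_ (fun i => ?_) i
    · show ‖(chi E v : ℂ)‖ < _
      rw [Complex.norm_real, Real.norm_eq_abs]
      exact (abs_chi_le v).trans_lt (one_lt_qq v)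
    · exact h.ramified v hv i
  · obtain ⟨v, i⟩ := x
    refine Fin.cases (motive := fun i => (v, i) ∈ TT E S T → v ∈ S ∧ ‖bb E β v i‖ = 1) ?_ (fun i => ?_) i hx
    · intro hx
      rw [mem_TT_zero] at hx
      refine ⟨hx.1, ?_⟩
      show ‖(chi E v : ℂ)‖ = 1
      rw [chi_inert hx.2]
      simp
    · intro hx
      rw [mem_TT_succ] at hx
      exact h.removed _ hx
  · obtain ⟨c, hc, hc2⟩ := h.nonneg v hv k
    have e1 : ∀ i : Fin (n ^ 4 - 1), cut (bb E β) (TT E S T) v i.succ ^ (k + 1) =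
        Set.indicator {i | (v, i) ∉ T} (fun i => β v i ^ (k + 1)) i := by
      intro i
      unfold cut
      by_cases hi : (v, i) ∈ T
      · rw [if_pos (mem_TT_succ.2 hi), Set.indicator_of_notMem (by simpa using hi), zero_pow (Nat.succ_ne_zero k)]
      · rw [if_neg (fun h => hi (mem_TT_succ.1 h)), Set.indicator_of_mem (by simpa using hi)]
        rfl
    rw [Fin.sum_univ_succ]
    simp_rw [e1]
    rw [hc2]
    by_cases hi : Inert E v
    · refine ⟨c, hc, ?_⟩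
      unfold cut
      rw [if_pos (mem_TT_zero.2 ⟨hv, hi⟩), zero_pow (Nat.succ_ne_zero k), zero_add]
    · refine ⟨chi E v ^ (k + 1) + c, add_nonneg (pow_nonneg (chi_nonneg hi) _) hc, ?_⟩
      unfold cut
      rw [if_neg (fun h => hi (mem_TT_zero.1 h).2)]
      push_cast
      rfl

theorem prod_bb (β : HeightOneSpectrum (𝓞 K) → Fin r → ℂ) (s : ℂ) :
    ∏ v ∈ S, ∏ j, (1 - bb E β v j * ((qq v : ℕ) : ℂ) ^ (-s)) =
      (∏ v ∈ S, (1 - (chi E v : ℂ) * ((qq v : ℕ) : ℂ) ^ (-s))) *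
        ∏ v ∈ S, ∏ j, (1 - β v j * ((qq v : ℕ) : ℂ) ^ (-s)) := by
  rw [← Finset.prod_mul_distrib]
  refine Finset.prod_congr rfl fun v _ => ?_
  rw [Fin.prod_univ_succ]
  rfl

theorem conj_real {N : ℕ} {κ : Fin N → ℂ} (h : ∀ j, κ j = 0 ∨ κ j = 1) (j : Fin N) :
    (starRingEnd ℂ) (κ j) = κ j := by
  rcases h j with h | h <;> rw [h] <;> simp

/-- **The least inert place with small traces.** -/
theorem least_inert (K : Type) [Field K] [NumberField K] (n m : ℕ) {ε : ℝ} (hε : 0 < ε) :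
    ∃ A : ℝ, 0 < A ∧ ∀ (E : Type) [Field E] [NumberField E] [Algebra K E], Module.finrank K E = 2 →
      ∀ (κ₀ : Fin (Module.finrank ℚ K) → ℂ) (Q₀ : ℝ), QuadraticL K E κ₀ Q₀ →
      ∀ (S : Finset (HeightOneSpectrum (𝓞 K))) (α : Fin m → HeightOneSpectrum (𝓞 E) → Fin n → ℂ)
        (β : Fin m → HeightOneSpectrum (𝓞 K) → Fin (n ^ 4 - 1) → ℂ)
        (T : Fin m → Finset (HeightOneSpectrum (𝓞 K) × Fin (n ^ 4 - 1)))
        (κ : Fin m → Fin ((n ^ 4 - 1) * Module.finrank ℚ K) → ℂ) (Q : Fin m → ℝ), 0 < m →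
        (∀ i, AsaiGL S (α i) (β i) (T i) (κ i) (Q i)) →
        ∃ (v : HeightOneSpectrum (𝓞 K)) (_ : v ∉ S) (h : Inert E v) (k : ℕ), Odd k ∧
          (Nm v : ℝ) ^ k ≤ A * (∏ i, ((Q₀ * Q i) ^ 2 * (∏ j, (1 + ‖κ i j‖)) * (∏ x ∈ T i, (Nm x.1 : ℝ)) *
            ∏ v ∈ SI E S, (Nm v : ℝ))) ^ (1 + ε) ∧
          ∑ i, ‖∑ j, α i (up v h) j ^ k‖ ^ 2 < 2 * m := by
  classical
  obtain ⟨A, hA0, hA⟩ := many K m (n ^ 4 - 1 + 1) ((n ^ 4 - 1) * Module.finrank ℚ K + Module.finrank ℚ K)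
    (((n : ℝ) ^ 2 + 1) ^ 4 + 2) hε
  -- the Gamma factors of the quadratic character
  set C : ℝ := ((2 : ℝ) ^ Module.finrank ℚ K) ^ m with hC
  have hC0 : 0 < C := by positivity
  refine ⟨A * C ^ (1 + ε), by positivity, fun E _ _ _ h2 κ₀ Q₀ h₀ S α β T κ Q hm h => ?_⟩
  obtain ⟨F₀, Ξ₀, ω₀, hF₀, hΞ₀, hω₀, hgr₀, hE₀, hΞF₀, hfe₀⟩ := h₀.lfunction
  have hL₀ : LData (Module.finrank ℚ K) κ₀ Q₀ F₀ :=
    ⟨h₀.one_le, by simp_rw [conj_real h₀.gamma], fun j => by rcases h₀.gamma j with h | h <;> rw [h] <;> simp,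
      hF₀, hgr₀, Ξ₀, ω₀, hω₀, hΞ₀, fun s hs => hΞF₀ s (by linarith), hfe₀⟩
  choose F Ξ ω hF hΞ hω hgr hE hΞF hfe using fun i => (h i).adjoint
  have hL : ∀ i, LData ((n ^ 4 - 1) * Module.finrank ℚ K) (κ i) (Q i) (F i) := fun i =>
    ⟨(h i).one_le, (h i).conj, (h i).re, hF i, hgr i, Ξ i, ω i, hω i, hΞ i, fun s hs => hΞF i s (by linarith),
      hfe i⟩
  obtain ⟨v, k, hle, hlt⟩ := hA S (fun i x => tA S (α i) x + chi E x.1.1 ^ (x.2 + 1)) (fun i => bb E (β i))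
    (fun i => TT E S (T i)) (fun i => Fin.append (κ i) κ₀) (fun i => Q i * Q₀) (fun i s => F i s * F₀ s)
    (fun i => locG h2 (h i)) (fun i => ldata_mul (hL i) hL₀)
    (by
      obtain ⟨j, hj⟩ := (h ⟨0, hm⟩).zero
      exact ⟨⟨0, hm⟩, Fin.castAdd _ j, by rw [Fin.append_left]; exact hj⟩)
    (fun i s hs => by
      rw [prod_bb, logT_add (tA_le h2 (h i)) (chi_le (E := E)) hs, Complex.exp_add, ← logChi_split hs,
        ← hE₀ s (by linarith)]
      have h5 : F i s * ∏ v ∈ S, ∏ j, (1 - β i v j * ((qq v : ℕ) : ℂ) ^ (-s)) =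
          Complex.exp (logT (tA S (α i)) s) := hE i s (by linarith)
      rw [← h5]
      ring)
  have hI : ∑ i, (tA S (α i) (v, k) + chi E v.1 ^ (k + 1)) < 0 := hlt
  -- the place is inert, and k + 1 is odd
  have hneg : chi E v.1 ^ (k + 1) = -1 := by
    by_contra hcon
    have h1 : chi E v.1 ^ (k + 1) = 1 := by
      have hR : ¬ Ramified E v.1 := fun hc => v.2 ((h ⟨0, hm⟩).unramified _ hc)
      by_cases hi : Inert E v.1
      · rw [chi_inert hi] at hcon ⊢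
        rcases neg_one_pow_eq_or ℝ (k + 1) with h | h
        · exact h
        · exact absurd h hcon
      · rw [chi_unramified hi hR, one_pow]
    rw [h1] at hI
    refine absurd hI (not_lt.2 (Finset.sum_nonneg fun i _ => ?_))
    unfold tA
    have := sq_nonneg ‖asaiPw (α i) v.1 (k + 1)‖
    linarith
  have hin : Inert E v.1 := by
    by_contra hi
    have := pow_nonneg (chi_nonneg hi) (k + 1)
    linarith
  have hodd : Odd (k + 1) := by
    rw [chi_inert hin] at hneg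
    by_contra hcon
    rw [Nat.not_odd_iff_even] at hcon
    rw [hcon.neg_one_pow] at hneg
    norm_num at hneg
  refine ⟨v.1, v.2, hin, k + 1, hodd, ?_, ?_⟩
  · refine hle.trans ?_
    rw [mul_assoc]
    refine mul_le_mul_of_nonneg_left ?_ hA0.le
    have hP : ∀ i, 0 ≤ (Q₀ * Q i) ^ 2 * (∏ j, (1 + ‖κ i j‖)) * (∏ x ∈ T i, (Nm x.1 : ℝ)) *
        ∏ v ∈ SI E S, (Nm v : ℝ) := fun i => by positivity
    rw [← Real.mul_rpow hC0.le (Finset.prod_nonneg fun i _ => hP i)]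
    refine Real.rpow_le_rpow (Finset.prod_nonneg fun i _ => ?_) ?_ (by linarith)
    · unfold PK
      positivity
    have hCC : C = ∏ _i : Fin m, (2 : ℝ) ^ Module.finrank ℚ K := by
      rw [Finset.prod_const, Finset.card_univ, Fintype.card_fin]
    rw [hCC, ← Finset.prod_mul_distrib]
    refine Finset.prod_le_prod (fun i _ => by unfold PK; positivity) fun i _ => ?_
    rw [prod_TT, pk_append]
    have h5 : PK κ₀ ≤ (2 : ℝ) ^ Module.finrank ℚ K := by
      unfold PK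
      calc ∏ j, (1 + ‖κ₀ j‖) ≤ ∏ _j : Fin (Module.finrank ℚ K), (2 : ℝ) := by
            refine Finset.prod_le_prod (fun j _ => by positivity) fun j _ => ?_
            rcases h₀.gamma j with h | h <;> rw [h] <;> norm_num
        _ = _ := by simp
    have h6 : 0 ≤ (Q i * Q₀) ^ 2 * PK (κ i) * ((∏ v ∈ SI E S, (qq v : ℝ)) * ∏ x ∈ T i, (qq x.1 : ℝ)) := by
      unfold PK
      positivity
    calc (Q i * Q₀) ^ 2 * (PK (κ i) * PK κ₀) * ((∏ v ∈ SI E S, (qq v : ℝ)) * ∏ x ∈ T i, (qq x.1 : ℝ)) =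
          PK κ₀ * ((Q i * Q₀) ^ 2 * PK (κ i) * ((∏ v ∈ SI E S, (qq v : ℝ)) * ∏ x ∈ T i, (qq x.1 : ℝ))) := by
          ring
      _ ≤ (2 : ℝ) ^ Module.finrank ℚ K *
          ((Q i * Q₀) ^ 2 * PK (κ i) * ((∏ v ∈ SI E S, (qq v : ℝ)) * ∏ x ∈ T i, (qq x.1 : ℝ))) :=
          mul_le_mul_of_nonneg_right h5 h6
      _ = (2 : ℝ) ^ Module.finrank ℚ K * ((Q₀ * Q i) ^ 2 * PK (κ i) * (∏ x ∈ T i, (qq x.1 : ℝ)) *
          ∏ v ∈ SI E S, (qq v : ℝ)) := by ring
      _ = _ := rfl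
  · have h7 : ∑ i, (tA S (α i) (v, k) + chi E v.1 ^ (k + 1)) =
        ∑ i, ‖∑ j, α i (up v.1 hin) j ^ (k + 1)‖ ^ 2 - 2 * m := by
      rw [hneg]
      have h8 : ∀ i, tA S (α i) (v, k) + -1 = ‖∑ j, α i (up v.1 hin) j ^ (k + 1)‖ ^ 2 - 2 := by
        intro i
        have h9 : asaiPw (α i) v.1 (k + 1) = ∑ j, α i (up v.1 hin) j ^ (k + 1) := asaiPw_inert hin hodd
        unfold tA
        simp only
        rw [h9]
        ring
      simp_rw [h8]
      rw [Finset.sum_sub_distrib, Finset.sum_const, Finset.card_univ, Fintype.card_fin, nsmul_eq_mul]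
      ring
    linarith

end Pool.Agent.R398.LI
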